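import Pool.Agent.H26.QQ.Targets

/-!
Row CHN of the board qq_modules (MP_7ecdd4_nt): the scales.
-/

set_option autoImplicit false

namespace Pool.Agent.H40.QQ

open Pool.Agent.H26.QQ

theorem pf_CHN : T_CHN := by
  intro P η hη hP
  choose Es gs hgs hP using hP
  -- the recursion
  let st : ℕ → ℕ × ℝ := fun t => Nat.rec (⌈2 / η⌉₊, η)
    (fun _ q => (max q.1 (Es (q.1 + ⌈1 / q.2⌉₊)), min q.2 (gs (q.1 + ⌈1 / q.2⌉₊)))) t
  have h0 : st 0 = (⌈2 / η⌉₊, η) := rfl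
  have hs : ∀ t, st (t + 1) = (max (st t).1 (Es ((st t).1 + ⌈1 / (st t).2⌉₊)),
      min (st t).2 (gs ((st t).1 + ⌈1 / (st t).2⌉₊))) := fun _ => rfl
  have key : ∀ t, 0 < (st t).2 ∧ (st t).2 ≤ η ∧ 2 / η ≤ ((st t).1 : ℝ) := by
    intro t
    induction t with
    | zero =>
      rw [h0]
      exact ⟨hη, le_rfl, Nat.le_ceil _⟩
    | succ t ih =>
      obtain ⟨h1, h2, h3⟩ := ih
      rw [hs]
      refine ⟨lt_min h1 (hgs _), (min_le_left _ _).trans h2, h3.trans ?_⟩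
      exact_mod_cast le_max_left _ _
  refine ⟨fun t => (st t).1, fun t => ⌈1 / (st t).2⌉₊, fun t => (st t).2, fun t => ?_⟩
  obtain ⟨h1, h2, h3⟩ := key t
  refine ⟨h1, h2, ?_, h3, ?_, ?_, ?_⟩
  · show 1 ≤ (st t).2 * ((⌈1 / (st t).2⌉₊ : ℕ) : ℝ)
    have h4 := mul_le_mul_of_nonneg_left (Nat.le_ceil (1 / (st t).2)) h1.le
    rwa [mul_one_div_cancel h1.ne'] at h4
  · show (st t).1 ≤ (st (t + 1)).1
    rw [hs]
    exact le_max_left _ _
  · show (st (t + 1)).2 ≤ (st t).2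
    rw [hs]
    exact min_le_left _ _
  · show P ((st t).1 + ⌈1 / (st t).2⌉₊) (st (t + 1)).1 (st (t + 1)).2
    rw [hs]
    exact hP _ _ _ (le_max_right _ _) (min_le_right _ _)

end Pool.Agent.H40.QQ
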